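import Pool.Agent.Lib.MP_af3a4a_an.P1.CHK.DATA.N7.K0
import Pool.Agent.Lib.MP_af3a4a_an.P1.CHK.DATA.N7.K1
import Pool.Agent.Lib.MP_af3a4a_an.P1.CHK.DATA.N7.K2
import Pool.Agent.Lib.MP_af3a4a_an.P1.CHK.DATA.N7.K3
import Pool.Agent.Lib.MP_af3a4a_an.P1.CHK.DATA.N7.K4

/-! glue for 7 <= N <= 7 (generated) -/

set_option autoImplicit false
set_option maxRecDepth 100000

namespace Pool.Agent.Lib.MP_af3a4a_an.P1.CHK.DATA.N7

open BOX

theorem g0 : ChunkP 7 7 0 1024 0 101 0 2484 := ChunkP.r k0 k1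
theorem g1 : ChunkP 7 7 1280 1536 48 64 1920 2484 := ChunkP.g k12 k13
theorem g2 : ChunkP 7 7 1280 1536 48 64 1872 2484 := ChunkP.R k11 g1
theorem g3 : ChunkP 7 7 1280 1536 48 64 1776 2484 := ChunkP.R k10 g2
theorem g4 : ChunkP 7 7 1024 1536 48 64 1776 2484 := ChunkP.r k9 g3
theorem g5 : ChunkP 7 7 1024 1536 48 64 1728 2484 := ChunkP.R k8 g4
theorem g6 : ChunkP 7 7 1024 1536 48 64 1680 2484 := ChunkP.R k7 g5
theorem g7 : ChunkP 7 7 1024 1536 48 64 1584 2484 := ChunkP.R k6 g6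
theorem g8 : ChunkP 7 7 1024 1536 48 64 1344 2484 := ChunkP.R k5 g7
theorem g9 : ChunkP 7 7 1024 1536 48 64 0 2484 := ChunkP.R k4 g8
theorem g10 : ChunkP 7 7 1024 1536 32 64 0 2484 := ChunkP.g k3 g9
theorem g11 : ChunkP 7 7 1024 1536 0 64 0 2484 := ChunkP.g k2 g10
theorem g12 : ChunkP 7 7 1024 1536 64 96 0 2484 := ChunkP.g k14 k15
theorem g13 : ChunkP 7 7 1024 1536 64 101 0 2484 := ChunkP.g g12 k16
theorem g14 : ChunkP 7 7 1024 1536 0 101 0 2484 := ChunkP.g g11 g13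
theorem g15 : ChunkP 7 7 1536 2048 32 48 1296 2484 := ChunkP.r k22 k23
theorem g16 : ChunkP 7 7 1536 2048 32 48 1248 2484 := ChunkP.R k21 g15
theorem g17 : ChunkP 7 7 1536 2048 32 48 1200 2484 := ChunkP.R k20 g16
theorem g18 : ChunkP 7 7 1536 2048 32 48 1104 2484 := ChunkP.R k19 g17
theorem g19 : ChunkP 7 7 1536 2048 32 48 0 2484 := ChunkP.R k18 g18
theorem g20 : ChunkP 7 7 1536 1792 56 64 1920 2484 := ChunkP.r k36 k37
theorem g21 : ChunkP 7 7 1536 1792 56 64 1872 2484 := ChunkP.R k35 g20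
theorem g22 : ChunkP 7 7 1536 1792 56 64 1824 2484 := ChunkP.R k34 g21
theorem g23 : ChunkP 7 7 1536 1792 56 64 1728 2484 := ChunkP.R k33 g22
theorem g24 : ChunkP 7 7 1536 1792 48 64 1728 2484 := ChunkP.g k32 g23
theorem g25 : ChunkP 7 7 1536 1792 48 64 1680 2484 := ChunkP.R k31 g24
theorem g26 : ChunkP 7 7 1536 1792 48 64 1632 2484 := ChunkP.R k30 g25
theorem g27 : ChunkP 7 7 1536 1792 48 64 1536 2484 := ChunkP.R k29 g26
theorem g28 : ChunkP 7 7 1536 1792 48 64 1296 2484 := ChunkP.R k28 g27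
theorem g29 : ChunkP 7 7 1792 2048 56 64 1824 2484 := ChunkP.r k45 k46
theorem g30 : ChunkP 7 7 1792 2048 56 64 1776 2484 := ChunkP.R k44 g29
theorem g31 : ChunkP 7 7 1792 2048 56 64 1728 2484 := ChunkP.R k43 g30
theorem g32 : ChunkP 7 7 1792 2048 56 64 1632 2484 := ChunkP.R k42 g31
theorem g33 : ChunkP 7 7 1792 2048 56 64 1440 2484 := ChunkP.R k41 g32
theorem g34 : ChunkP 7 7 1792 2048 48 64 1440 2484 := ChunkP.g k40 g33
theorem g35 : ChunkP 7 7 1792 2048 48 64 1392 2484 := ChunkP.R k39 g34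
theorem g36 : ChunkP 7 7 1792 2048 48 64 1296 2484 := ChunkP.R k38 g35
theorem g37 : ChunkP 7 7 1536 2048 48 64 1296 2484 := ChunkP.r g28 g36
theorem g38 : ChunkP 7 7 1536 2048 48 64 1248 2484 := ChunkP.R k27 g37
theorem g39 : ChunkP 7 7 1536 2048 48 64 1200 2484 := ChunkP.R k26 g38
theorem g40 : ChunkP 7 7 1536 2048 48 64 1104 2484 := ChunkP.R k25 g39
theorem g41 : ChunkP 7 7 1536 2048 48 64 0 2484 := ChunkP.R k24 g40
theorem g42 : ChunkP 7 7 1536 2048 32 64 0 2484 := ChunkP.g g19 g41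
theorem g43 : ChunkP 7 7 1536 2048 0 64 0 2484 := ChunkP.g k17 g42
theorem g44 : ChunkP 7 7 1536 1792 64 72 1968 2484 := ChunkP.r k56 k57
theorem g45 : ChunkP 7 7 1536 1792 64 72 1920 2484 := ChunkP.R k55 g44
theorem g46 : ChunkP 7 7 1536 1792 64 72 1824 2484 := ChunkP.R k54 g45
theorem g47 : ChunkP 7 7 1536 1792 64 80 1824 2484 := ChunkP.g g46 k58
theorem g48 : ChunkP 7 7 1536 1792 64 80 1776 2484 := ChunkP.R k53 g47
theorem g49 : ChunkP 7 7 1536 1792 64 80 1680 2484 := ChunkP.R k52 g48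
theorem g50 : ChunkP 7 7 1536 1792 64 80 1536 2484 := ChunkP.R k51 g49
theorem g51 : ChunkP 7 7 1536 2048 64 80 1536 2484 := ChunkP.r g50 k59
theorem g52 : ChunkP 7 7 1536 2048 64 80 1488 2484 := ChunkP.R k50 g51
theorem g53 : ChunkP 7 7 1536 2048 64 80 1392 2484 := ChunkP.R k49 g52
theorem g54 : ChunkP 7 7 1536 2048 64 80 1200 2484 := ChunkP.R k48 g53
theorem g55 : ChunkP 7 7 1536 2048 64 80 0 2484 := ChunkP.R k47 g54
theorem g56 : ChunkP 7 7 1536 2048 64 96 0 2484 := ChunkP.g g55 k60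
theorem g57 : ChunkP 7 7 1536 2048 64 101 0 2484 := ChunkP.g g56 k61
theorem g58 : ChunkP 7 7 1536 2048 0 101 0 2484 := ChunkP.g g43 g57
theorem g59 : ChunkP 7 7 1024 2048 0 101 0 2484 := ChunkP.r g14 g58
theorem g60 : ChunkP 7 7 0 2048 0 101 0 2484 := ChunkP.r g0 g59
theorem g61 : ChunkP 7 7 2048 2560 32 48 1008 2484 := ChunkP.g k65 k66
theorem g62 : ChunkP 7 7 2048 2560 32 48 912 2484 := ChunkP.R k64 g61
theorem g63 : ChunkP 7 7 2048 2560 32 48 0 2484 := ChunkP.R k63 g62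
theorem g64 : ChunkP 7 7 2048 2304 48 56 1632 2484 := ChunkP.g k76 k77
theorem g65 : ChunkP 7 7 2048 2304 48 56 1584 2484 := ChunkP.R k75 g64
theorem g66 : ChunkP 7 7 2048 2304 48 56 1488 2484 := ChunkP.R k74 g65
theorem g67 : ChunkP 7 7 2048 2304 48 56 1392 2484 := ChunkP.R k73 g66
theorem g68 : ChunkP 7 7 2048 2304 48 56 1200 2484 := ChunkP.R k72 g67
theorem g69 : ChunkP 7 7 2048 2560 48 56 1200 2484 := ChunkP.r g68 k78
theorem g70 : ChunkP 7 7 2048 2560 48 56 1152 2484 := ChunkP.R k71 g69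
theorem g71 : ChunkP 7 7 2048 2560 48 56 1056 2484 := ChunkP.R k70 g70
theorem g72 : ChunkP 7 7 2048 2304 56 64 1632 2484 := ChunkP.g k85 k86
theorem g73 : ChunkP 7 7 2048 2304 56 64 1584 2484 := ChunkP.R k84 g72
theorem g74 : ChunkP 7 7 2048 2304 56 64 1440 2484 := ChunkP.R k83 g73
theorem g75 : ChunkP 7 7 2048 2304 56 64 1296 2484 := ChunkP.R k82 g74
theorem g76 : ChunkP 7 7 2048 2560 56 64 1296 2484 := ChunkP.r g75 k87
theorem g77 : ChunkP 7 7 2048 2560 56 64 1248 2484 := ChunkP.R k81 g76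
theorem g78 : ChunkP 7 7 2048 2560 56 64 1200 2484 := ChunkP.R k80 g77
theorem g79 : ChunkP 7 7 2048 2560 56 64 1056 2484 := ChunkP.R k79 g78
theorem g80 : ChunkP 7 7 2048 2560 48 64 1056 2484 := ChunkP.g g71 g79
theorem g81 : ChunkP 7 7 2048 2560 48 64 1008 2484 := ChunkP.R k69 g80
theorem g82 : ChunkP 7 7 2048 2560 48 64 912 2484 := ChunkP.R k68 g81
theorem g83 : ChunkP 7 7 2048 2560 48 64 0 2484 := ChunkP.R k67 g82
theorem g84 : ChunkP 7 7 2048 2560 32 64 0 2484 := ChunkP.g g63 g83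
theorem g85 : ChunkP 7 7 2048 2560 0 64 0 2484 := ChunkP.g k62 g84
theorem g86 : ChunkP 7 7 2048 2560 0 101 0 2484 := ChunkP.g g85 k88
theorem g87 : ChunkP 7 7 2560 3072 32 64 0 2484 := ChunkP.g k90 k91
theorem g88 : ChunkP 7 7 2560 3072 0 64 0 2484 := ChunkP.g k89 g87
theorem g89 : ChunkP 7 7 2560 3072 0 101 0 2484 := ChunkP.g g88 k92
theorem g90 : ChunkP 7 7 2048 3072 0 101 0 2484 := ChunkP.r g86 g89
theorem g91 : ChunkP 7 7 3072 3584 32 64 0 2484 := ChunkP.g k94 k95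
theorem g92 : ChunkP 7 7 3072 3584 0 64 0 2484 := ChunkP.g k93 g91
theorem g93 : ChunkP 7 7 3072 3584 0 101 0 2484 := ChunkP.g g92 k96
theorem g94 : ChunkP 7 7 3584 4096 0 101 0 2484 := ChunkP.g k97 k98
theorem g95 : ChunkP 7 7 3072 4096 0 101 0 2484 := ChunkP.r g93 g94
theorem g96 : ChunkP 7 7 2048 4096 0 101 0 2484 := ChunkP.r g90 g95
theorem g97 : ChunkP 7 7 0 4096 0 101 0 2484 := ChunkP.r g60 g96

/-- the whole box -/
theorem allBox : ChunkP 7 7 0 4096 0 101 0 2484 := g97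

theorem full {N : ℕ} (hNa : 7 ≤ N) (hNb : N ≤ 7) {z w : Fin N → ℂ} {R : ℝ} {σ : Fin N → ℂ}
    (hC : Pool.Agent.Lib.MP_af3a4a_an.P1.H80.Cfg2 N z w R σ) : ((2484 : ℕ) : ℝ) / 1024 < R := ChunkP.full allBox hNa hNb hC

end Pool.Agent.Lib.MP_af3a4a_an.P1.CHK.DATA.N7
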